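import Mathlib
import Pool.Agent.H.MP_9d0418_gt.Heis

set_option autoImplicit false

namespace Pool.Agent.Results.MP_5e2b9f_al.Counter

open Set H.MP_9d0418_gt

universe u

def Perf {S : Type} [Semigroup S] {X : Type u} (supp : S → Set X) : Prop :=
  (∀ f g, supp (f * g) ⊆ supp f ∪ supp g) ∧ (∀ f g, supp f ∩ supp g = ∅ → f * g = g * f) ∧
    (∀ f, (supp f).Finite) ∧ ∀ F ⊆ ⋃ f, supp f, F.Finite → {f | supp f ⊆ F}.Finite ∧
      {f | supp f ⊆ F} = {f | supp f ⊆ (⋃ f, supp f) \ F}.centralizer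

theorem result : ∃ (G : Type) (_ : Group G),
    (∀ F : Set G, F.Finite → F.centralizer.centralizer.Finite) ∧
      ∀ (X : Type u) (supp : G → Set X), ¬ Perf supp := by
  refine ⟨G, inferInstance, fin_cc, fun X supp ⟨_, h2, h3, h4⟩ => ?_⟩
  have h5 : ∀ (E : Set X) (w : ℕ →₀ K), ∃ g : G, ∀ x : G, Disjoint (supp x) E → x.v.2 = w →
      Disjoint (supp g) E ∧ g.v.2 = w := fun E w => by
    by_cases h : ∃ g : G, Disjoint (supp g) E ∧ g.v.2 = w
    · exact h.imp fun g hg _ _ _ => hg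
    · exact ⟨1, fun x h1 h2 => absurd ⟨x, h1, h2⟩ h⟩
  choose g hg using h5
  let T : ℕ → Set X := fun n =>
    Nat.rec ∅ (fun _ J => J ∪ ⋃ E ∈ {E : Set X | E.Finite ∧ E ⊆ J}, ⋃ w, supp (g E w)) n
  have h6 : ∀ n, (T n).Countable := fun n => by
    induction n with
    | zero => exact countable_empty
    | succ n ih => exact ih.union ((countable_ofPred_finite_subset ih).biUnion fun E _ =>
        countable_iUnion fun w => (h3 _).countable)
  have h7 : Monotone T := monotone_nat_of_le_succ fun n => subset_union_left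
  refine not_countable_univ ((((countable_ofPred_finite_subset (countable_iUnion h6)).biUnion
    (t := fun E _ => {f | supp f ⊆ E ∩ ⋃ f, supp f}) fun E hE =>
      (h4 _ inter_subset_right (hE.1.inter_of_left _)).1.countable).preimage ι_inj).mono fun f _ => ?_)
  have h8 := (h3 (ι f)).inter_of_left (⋃ n, T n)
  have h9 : supp (ι f) ∩ ⋃ n, T n ⊆ ⋃ f, supp f := inter_subset_left.trans (subset_iUnion supp _)
  refine mem_iUnion₂.2 ⟨_, ⟨h8, inter_subset_right⟩, ?_⟩
  rw [inter_eq_left.2 h9, (h4 _ h9 h8).2]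
  intro x hx
  obtain ⟨c1, c2⟩ := hg _ _ x (subset_sdiff.1 hx).2 rfl
  refine ι_comm c2 (h2 _ _ (eq_empty_of_forall_notMem fun a ha => disjoint_left.1 c1 ha.1 ⟨ha.2, ?_⟩))
  obtain ⟨n, hn⟩ := h7.directed_le.exists_mem_subset_of_finset_subset_biUnion
    (s := h8.toFinset) (by simp)
  exact mem_iUnion.2 ⟨n + 1, Or.inr (mem_iUnion₂.2 ⟨_, ⟨h8, h8.coe_toFinset ▸ hn⟩,
    mem_iUnion.2 ⟨_, ha.1⟩⟩)⟩

end Pool.Agent.Results.MP_5e2b9f_al.Counter
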